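import Pool.Agent.Y745.LD.DefsA
import Pool.Agent.Y240.SW.DF

set_option autoImplicit false

/-!
LD project (helper745, MP_6bc78b_nt), job DFU: the sum of the squares of the coefficients of the prime sums,
uniformly in the window function.
-/

namespace Pool.Agent.Y290.LD

open ArithmeticFunction MeasureTheory Filter Topology Pool.Agent.Y240.SW

noncomputable section

/-- a quantitative modulus of continuity in mean square -/
theorem gam_quant {B : ℝ → ℝ} (hB : Continuous B) {M K h : ℝ} (hM : ∀ ξ, |B ξ| ≤ M)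
    (hK : ∀ ξ ξ', |B ξ - B ξ'| ≤ K * |ξ - ξ'|) (h0 : 0 ≤ h) :
    ∫ ξ, gam B h ξ ^ 2 ≤ 2 * (K * h) ^ 2 + 2 * h * M ^ 2 := by
  set f : ℝ → ℝ := fun ξ => (Set.Icc (-1:ℝ) 1).indicator (fun _ => (K * h) ^ 2) ξ +
    ((Set.Icc (-1 - h) (-1)).indicator (fun _ => M ^ 2) ξ +
      (Set.Icc (1 - h) 1).indicator (fun _ => M ^ 2) ξ) with hf
  have hi : ∀ (a b c : ℝ), Integrable (fun ξ => (Set.Icc a b).indicator (fun _ : ℝ => c) ξ) := by
    intro a b c
    exact (integrable_indicator_iff measurableSet_Icc).2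
      (integrableOn_const (by rw [Real.volume_Icc]; exact ENNReal.ofReal_ne_top))
  have hv : ∀ (a b c : ℝ), a ≤ b → ∫ ξ, (Set.Icc a b).indicator (fun _ : ℝ => c) ξ = (b - a) * c := by
    intro a b c hab
    rw [integral_indicator measurableSet_Icc, setIntegral_const, Real.volume_real_Icc_of_le hab,
      smul_eq_mul]
  have hsq : ∀ x y : ℝ, |x| ≤ y → x ^ 2 ≤ y ^ 2 := by
    intro x y hxy
    rw [← sq_abs x]
    exact pow_le_pow_left₀ (abs_nonneg _) hxy 2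
  have hle : ∀ ξ, gam B h ξ ^ 2 ≤ f ξ := by
    intro ξ
    have i1 : 0 ≤ (Set.Icc (-1:ℝ) 1).indicator (fun _ => (K * h) ^ 2) ξ :=
      Set.indicator_nonneg (fun _ _ => sq_nonneg _) _
    have i2 : 0 ≤ (Set.Icc (-1 - h) (-1)).indicator (fun _ : ℝ => M ^ 2) ξ :=
      Set.indicator_nonneg (fun _ _ => sq_nonneg _) _
    have i3 : 0 ≤ (Set.Icc (1 - h) 1).indicator (fun _ : ℝ => M ^ 2) ξ :=
      Set.indicator_nonneg (fun _ _ => sq_nonneg _) _
    rw [hf]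
    show gam B h ξ ^ 2 ≤ _ + (_ + _)
    unfold gam bet
    by_cases h1 : ξ + h ∈ Set.Ioc (-1:ℝ) 1
    · by_cases h2 : ξ ∈ Set.Ioc (-1:ℝ) 1
      · rw [Set.indicator_of_mem h1, Set.indicator_of_mem h2]
        have h3 := hK (ξ + h) ξ
        rw [add_sub_cancel_left, abs_of_nonneg h0] at h3
        have h4 := hsq _ _ h3
        rw [Set.indicator_of_mem (Set.Ioc_subset_Icc_self h2)] at i1 ⊢
        linarith
      · rw [Set.indicator_of_mem h1, Set.indicator_of_notMem h2, sub_zero]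
        have h4 := hsq _ _ (hM (ξ + h))
        have h5 : ξ ∈ Set.Icc (-1 - h) (-1) := by
          rw [Set.mem_Ioc, not_and_or, not_lt, not_le] at h2
          rcases h2 with h2 | h2
          · exact ⟨by linarith [h1.1], h2⟩
          · exact absurd h1.2 (by linarith)
        rw [Set.indicator_of_mem h5] at i2 ⊢
        linarith
    · by_cases h2 : ξ ∈ Set.Ioc (-1:ℝ) 1
      · rw [Set.indicator_of_notMem h1, Set.indicator_of_mem h2, zero_sub, neg_sq]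
        have h4 := hsq _ _ (hM ξ)
        have h5 : ξ ∈ Set.Icc (1 - h) 1 := by
          rw [Set.mem_Ioc, not_and_or, not_lt, not_le] at h1
          rcases h1 with h1 | h1
          · exact absurd h2.1 (by linarith)
          · exact ⟨by linarith, h2.2⟩
        rw [Set.indicator_of_mem h5] at i3 ⊢
        linarith
      · rw [Set.indicator_of_notMem h1, Set.indicator_of_notMem h2, sub_zero, zero_pow (by norm_num)]
        linarith
  calc ∫ ξ, gam B h ξ ^ 2 ≤ ∫ ξ, f ξ :=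
        integral_mono (gam_sq_int hB h) ((hi _ _ _).add ((hi _ _ _).add (hi _ _ _))) hle
    _ = 2 * (K * h) ^ 2 + 2 * h * M ^ 2 := by
        have hi2 : Integrable (fun ξ => (Set.Icc (-1 - h) (-1)).indicator (fun _ : ℝ => M ^ 2) ξ +
          (Set.Icc (1 - h) 1).indicator (fun _ => M ^ 2) ξ) := (hi _ _ _).add (hi _ _ _)
        have e1 : ∫ ξ, f ξ = (∫ ξ, (Set.Icc (-1:ℝ) 1).indicator (fun _ => (K * h) ^ 2) ξ) +
            ∫ ξ, ((Set.Icc (-1 - h) (-1)).indicator (fun _ : ℝ => M ^ 2) ξ +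
              (Set.Icc (1 - h) 1).indicator (fun _ => M ^ 2) ξ) := integral_add (hi _ _ _) hi2
        rw [e1, integral_add (hi _ _ _) (hi _ _ _), hv _ _ _ (by norm_num), hv _ _ _ (by linarith),
          hv _ _ _ (by linarith)]
        ring

/-- the main term -/
theorem main_term {IB N m τ L u ε y : ℝ} (hN1 : 1 ≤ N) (hIB : IB ≤ N / Real.pi)
    (hm1 : 0 ≤ m) (hτ : 0 < τ) (hτ1 : τ ≤ 1) (hL0 : 0 < L) (hmL : 2 * m ≤ L * τ) (hu0 : 0 ≤ u)
    (huL : u ≤ L) (hudef : u = (1 - ε) * L * y) :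
    (1 + τ) * (1 / (τ * L) * ((1 + τ) * ((u + m) * IB))) ≤
      (1 - ε) / (Real.pi * τ) * N * y + 2 * N := by
  have hpi := Real.pi_gt_three
  have hpi0 : 0 < Real.pi := Real.pi_pos
  have ha : 0 < τ * L := by positivity
  have hN0 : 0 < N := by linarith
  have h2 : (1 + τ) * (1 + τ) ≤ 1 + 3 * τ := by nlinarith
  have h4 : 0 ≤ (u + m) * (N / Real.pi) / (τ * L) := by positivity
  have h3 : (1 + τ) * (1 / (τ * L) * ((1 + τ) * ((u + m) * IB))) ≤
      (1 + 3 * τ) * ((u + m) * (N / Real.pi) / (τ * L)) := by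
    calc (1 + τ) * (1 / (τ * L) * ((1 + τ) * ((u + m) * IB)))
        = ((1 + τ) * (1 + τ)) * ((u + m) * IB / (τ * L)) := by ring
      _ ≤ ((1 + τ) * (1 + τ)) * ((u + m) * (N / Real.pi) / (τ * L)) := by
          apply mul_le_mul_of_nonneg_left _ (by positivity)
          apply div_le_div_of_nonneg_right _ ha.le
          exact mul_le_mul_of_nonneg_left hIB (by linarith)
      _ ≤ _ := mul_le_mul_of_nonneg_right h2 h4
  have h5 : u * (N / Real.pi) / (τ * L) = (1 - ε) / (Real.pi * τ) * N * y := by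
    rw [hudef]; field_simp
  have h6 : 3 * τ * (u * (N / Real.pi) / (τ * L)) ≤ N := by
    have e : 3 * τ * (u * (N / Real.pi) / (τ * L)) = N * (3 * u / (Real.pi * L)) := by field_simp
    rw [e]
    have : 3 * u / (Real.pi * L) ≤ 1 := by
      rw [div_le_one (by positivity)]
      nlinarith
    nlinarith
  have h7 : (1 + 3 * τ) * (m * (N / Real.pi) / (τ * L)) ≤ N := by
    have e : (1 + 3 * τ) * (m * (N / Real.pi) / (τ * L)) =
        N * ((1 + 3 * τ) * m / (Real.pi * (τ * L))) := by field_simp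
    rw [e]
    have : (1 + 3 * τ) * m / (Real.pi * (τ * L)) ≤ 1 := by
      rw [div_le_one (by positivity)]
      have g1 : (1 + 3 * τ) * m ≤ 4 * m := mul_le_mul_of_nonneg_right (by linarith) hm1
      have g2 : 3 * (τ * L) ≤ Real.pi * (τ * L) := mul_le_mul_of_nonneg_right hpi.le ha.le
      nlinarith
    nlinarith
  calc _ ≤ _ := h3
    _ = u * (N / Real.pi) / (τ * L) + 3 * τ * (u * (N / Real.pi) / (τ * L)) +
        (1 + 3 * τ) * (m * (N / Real.pi) / (τ * L)) := by ring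
    _ ≤ _ := by rw [h5] at h6 ⊢; linarith

/-- the bound for one `y` -/
theorem y_bound {B : ℝ → ℝ} (hB : Continuous B) (hev : ∀ ξ, B (-ξ) = B ξ)
    {N CB τ ε η1 L C0 s : ℝ} (hN1 : 1 ≤ N) (hCB : 1 ≤ CB) (hs : s ^ 2 = L) (hs1 : 1 ≤ s)
    (hNs : N ^ 2 ≤ s) (hM : ∀ ξ, |B ξ| ≤ CB * N)
    (hK : ∀ ξ ξ', |B ξ - B ξ'| ≤ CB * N ^ 2 * |ξ - ξ'|)
    (hIB : (∫ ξ in (-1:ℝ)..1, B ξ ^ 2) ≤ N / Real.pi)
    (hτ : 0 < τ) (hε : 0 < ε) (hε1 : ε < 1 / 2) (hη1 : 4 * τ ≤ η1) (hC : 0 < C0)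
    (hmL : 2 * m1 ≤ L * τ) (hla : 8 ≤ τ ^ 2 * L)
    (hbig : (1 + 1 / τ) * (4 * C0 / τ) * (128 * CB ^ 2 / τ ^ 4 + 16 * CB ^ 2 / τ ^ 2) ≤ s) (X : ℕ)
    (hlin : ∀ (v : ℝ), ∑ n ∈ Finset.Icc 1 X, vonMangoldt n ^ 2 / (n:ℝ) *
      (kap * Real.exp (-(v - Real.log n) ^ 2 / 2)) ≤ C0 * (1 + |v|)) {y : ℝ} (hy : y ∈ Set.Icc η1 1) :
    ∑ n ∈ Finset.Icc 1 X, vonMangoldt n ^ 2 / (n:ℝ) *
      GG B (τ * L) ((1 - ε) * L * y) (Real.log n) ^ 2 ≤
        (1 - ε) / (Real.pi * τ) * N * y + 3 * N := by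
  have hL1 : 1 ≤ L := by rw [← hs]; nlinarith
  have hL0 : 0 < L := by linarith
  have hs0 : 0 < s := by linarith
  have ha : 0 < τ * L := by positivity
  have hτ1 : τ ≤ 1 / 4 := by linarith [hy.1, hy.2]
  have hu : τ * L ≤ (1 - ε) * L * y := by
    have h1 : 2 * τ ≤ (1 - ε) * y := by nlinarith [hy.1]
    nlinarith
  have hla' : 8 / τ / (τ * L) ≤ 1 := by
    rw [div_div, div_le_one (by positivity)]
    nlinarith
  set δ : ℝ := (128 * CB ^ 2 / τ ^ 4 + 16 * CB ^ 2 / τ ^ 2) / s with hδ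
  have hδ0 : 0 ≤ δ := by positivity
  have hsm : ∀ h : ℝ, 0 ≤ h → h ≤ 8 / τ / (τ * L) → ∫ ξ, gam B h ξ ^ 2 ≤ δ := by
    intro h hh hh'
    refine (gam_quant hB hM hK hh).trans ?_
    have e0 : 8 / τ / (τ * L) = 8 / (τ ^ 2 * s ^ 2) := by rw [hs]; field_simp
    rw [e0] at hh'
    have hN2 : 0 ≤ N ^ 2 := by positivity
    have g1 : (CB * N ^ 2 * h) ^ 2 ≤ (CB * s * (8 / (τ ^ 2 * s ^ 2))) ^ 2 := by
      apply pow_le_pow_left₀ (by positivity)
      gcongr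
    have g2 : 2 * h * (CB * N) ^ 2 ≤ 2 * (8 / (τ ^ 2 * s ^ 2)) * (CB ^ 2 * s) := by
      have : (CB * N) ^ 2 ≤ CB ^ 2 * s := by
        rw [mul_pow]
        exact mul_le_mul_of_nonneg_left hNs (by positivity)
      gcongr
    have g3 : 2 * (CB * s * (8 / (τ ^ 2 * s ^ 2))) ^ 2 = 128 * CB ^ 2 / τ ^ 4 / s ^ 2 := by
      field_simp
      ring
    have g4 : 2 * (8 / (τ ^ 2 * s ^ 2)) * (CB ^ 2 * s) = 16 * CB ^ 2 / τ ^ 2 / s := by
      field_simp
      ring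
    have g5 : 128 * CB ^ 2 / τ ^ 4 / s ^ 2 ≤ 128 * CB ^ 2 / τ ^ 4 / s := by
      apply div_le_div_of_nonneg_left (by positivity) hs0
      nlinarith
    rw [hδ, add_div]
    linarith
  have h1 := F_bound hB hev ha hu X (by positivity : (0:ℝ) < 8 / τ) hτ hla' hsm hC.le hlin
  refine h1.trans ?_
  have e1 : 8 / (8 / τ) = τ := by field_simp
  rw [e1]
  obtain ⟨u, hudef⟩ : ∃ u, u = (1 - ε) * L * y := ⟨_, rfl⟩
  rw [← hudef] at hu ⊢
  have hu0 : 0 ≤ u := ha.le.trans hu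
  have huL : u ≤ L := by
    have h2 : (1 - ε) * y ≤ 1 := by nlinarith [hy.2, hy.1]
    calc u = L * ((1 - ε) * y) := by rw [hudef]; ring
      _ ≤ L * 1 := mul_le_mul_of_nonneg_left h2 hL0.le
      _ = L := mul_one L
  have p1 := main_term hN1 hIB m1_nonneg hτ (by linarith) hL0 hmL hu0 huL hudef
  have p2 : (1 + 1 / τ) * (1 / (τ * L) * (C0 * (1 + u + 2 * (τ * L))) * δ) ≤ 1 := by
    have h3 : 1 + u + 2 * (τ * L) ≤ 4 * L := by nlinarith
    calc (1 + 1 / τ) * (1 / (τ * L) * (C0 * (1 + u + 2 * (τ * L))) * δ)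
        ≤ (1 + 1 / τ) * (1 / (τ * L) * (C0 * (4 * L)) * δ) := by gcongr
      _ = ((1 + 1 / τ) * (4 * C0 / τ) * (128 * CB ^ 2 / τ ^ 4 + 16 * CB ^ 2 / τ ^ 2)) / s := by
          rw [hδ]; field_simp
      _ ≤ 1 := by rw [div_le_one hs0]; exact hbig
  linarith

theorem t_DFU : Pool.Agent.Y745.LD.P_DFU := by
  intro R hRc hR0 _
  obtain ⟨C0, hC0, hlin⟩ := gauss_lin
  set IR := ∫ x in (0:ℝ)..1, R x with hIR
  have hIR0 : 0 ≤ IR := intervalIntegral.integral_nonneg (by norm_num) fun x hx => hR0 x hx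
  refine ⟨6 * IR + 1, by positivity, fun ε τ η1 CB e hε hε1 hτ hτε hη1 hη1' hCB he he8 => ?_⟩
  have hη10 : 0 < η1 := by linarith
  have hlog : ∀ᶠ T : ℝ in atTop, 1 + 2 * m1 / τ + 8 / τ ^ 2 ≤ Real.log T :=
    Real.tendsto_log_atTop.eventually_ge_atTop _
  have hsq : ∀ᶠ T : ℝ in atTop, (1 + 1 / τ) * (4 * C0 / τ) * (128 * CB ^ 2 / τ ^ 4 +
      16 * CB ^ 2 / τ ^ 2) ≤ Real.sqrt (Real.log T) :=
    (Real.tendsto_sqrt_atTop.comp Real.tendsto_log_atTop).eventually_ge_atTop _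
  filter_upwards [hlog, hsq] with T hT hT2 B N hB hev hN1 hNe hM hK hIB
  have hm1 := m1_nonneg
  have hq1 : 0 ≤ 2 * m1 / τ := by positivity
  have hq2 : 0 ≤ 8 / τ ^ 2 := by positivity
  set L := Real.log T with hL
  have hL1 : 1 ≤ L := by linarith
  have hL0 : 0 < L := by linarith
  have ha : 0 < τ * L := by positivity
  set s := Real.sqrt L with hs
  have hss : s ^ 2 = L := Real.sq_sqrt hL0.le
  have hs1 : 1 ≤ s := Real.one_le_sqrt.2 hL1
  have hmL : 2 * m1 ≤ L * τ := by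
    have h1 : 2 * m1 / τ ≤ L := by linarith
    rwa [div_le_iff₀ hτ] at h1
  have hla : 8 ≤ τ ^ 2 * L := by
    have h1 : 8 / τ ^ 2 ≤ L := by linarith
    rw [div_le_iff₀ (by positivity)] at h1
    linarith
  have hNs : N ^ 2 ≤ s := by
    have h1 : N ≤ L ^ (1 / 4 : ℝ) :=
      hNe.trans (Real.rpow_le_rpow_of_exponent_le hL1 (by linarith))
    have h2 : N ^ 2 ≤ (L ^ (1 / 4 : ℝ)) ^ 2 := pow_le_pow_left₀ (by linarith) h1 2
    have h3 : (L ^ (1 / 4 : ℝ)) ^ 2 = s := by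
      rw [hs, Real.sqrt_eq_rpow, ← Real.rpow_natCast, ← Real.rpow_mul hL0.le]
      norm_num
    rwa [h3] at h2
  set X := Pool.Agent.Y745.SW.XT ε T with hX
  clear_value X
  have hy : ∀ y ∈ Set.Icc η1 1, ∑ n ∈ Finset.Icc 1 X, (vonMangoldt n *
        ((Real.sqrt n)⁻¹ * Pool.Agent.Y745.SW.Gp B (τ * L) ((1 - ε) * L * y) (Real.log n))) ^ 2 =
      ∑ n ∈ Finset.Icc 1 X, vonMangoldt n ^ 2 / (n:ℝ) * GG B (τ * L) ((1 - ε) * L * y) (Real.log n) ^ 2 := by
    intro y hy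
    apply Finset.sum_congr rfl
    intro n hn
    have hu : τ * L ≤ (1 - ε) * L * y := by
      have h1 : 2 * τ ≤ (1 - ε) * y := by nlinarith [hy.1]
      nlinarith
    rw [Gp_eq B ha.le hu]
    have hn0 : (0:ℝ) ≤ n := Nat.cast_nonneg n
    rw [mul_pow, mul_pow, inv_pow, Real.sq_sqrt hn0]
    ring
  have hbd : ∀ y ∈ Set.Icc η1 1,
      ∑ n ∈ Finset.Icc 1 X, vonMangoldt n ^ 2 / (n:ℝ) * GG B (τ * L) ((1 - ε) * L * y) (Real.log n) ^ 2 ≤
        (1 - ε) / (Real.pi * τ) * N * y + 3 * N := fun y hy =>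
    y_bound hB hev hN1 hCB hss hs1 hNs hM hK hIB hτ hε hε1 hη1 hC0 hmL hla hT2 X (hlin X) hy
  have hcont : Continuous (fun y : ℝ => ∑ n ∈ Finset.Icc 1 X, vonMangoldt n ^ 2 / (n:ℝ) *
      GG B (τ * L) ((1 - ε) * L * y) (Real.log n) ^ 2) := by
    apply continuous_finsetSum
    intro n _
    exact (((GG_cont_u hB (τ * L) (Real.log n)).comp (continuous_const.mul continuous_id)).pow 2).const_mul _
  have e2 : ∫ y in η1..1, R y * ∑ n ∈ Finset.Icc 1 X, (vonMangoldt n *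
        ((Real.sqrt n)⁻¹ * Pool.Agent.Y745.SW.Gp B (τ * L) ((1 - ε) * L * y) (Real.log n))) ^ 2 =
      ∫ y in η1..1, R y * ∑ n ∈ Finset.Icc 1 X, vonMangoldt n ^ 2 / (n:ℝ) *
        GG B (τ * L) ((1 - ε) * L * y) (Real.log n) ^ 2 := by
    apply intervalIntegral.integral_congr
    intro y hy'
    rw [Set.uIcc_of_le hη1'] at hy'
    show R y * _ = R y * _
    rw [hy y hy']
  rw [e2]
  set c1 := (1 - ε) / (Real.pi * τ) * N with hc1
  have hc10 : 0 ≤ c1 := by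
    have h1 : 0 ≤ 1 - ε := by linarith
    have := Real.pi_pos
    positivity
  have h5 : ∫ y in η1..1, R y * ∑ n ∈ Finset.Icc 1 X, vonMangoldt n ^ 2 / (n:ℝ) *
        GG B (τ * L) ((1 - ε) * L * y) (Real.log n) ^ 2 ≤
      ∫ y in η1..1, (c1 * (y * R y) + (3 * N) * R y) := by
    apply intervalIntegral.integral_mono_on hη1'
    · exact (hRc.mul hcont).intervalIntegrable _ _
    · apply Continuous.intervalIntegrable; fun_prop
    · intro y hy'
      have h6 := hbd y hy'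
      have h7 : 0 ≤ R y := hR0 y ⟨by linarith [hy'.1], hy'.2⟩
      calc R y * ∑ n ∈ Finset.Icc 1 X, vonMangoldt n ^ 2 / (n:ℝ) *
            GG B (τ * L) ((1 - ε) * L * y) (Real.log n) ^ 2
          ≤ R y * (c1 * y + 3 * N) := mul_le_mul_of_nonneg_left h6 h7
        _ = _ := by ring
  have h8 : ∫ y in η1..1, (c1 * (y * R y) + (3 * N) * R y) ≤
      c1 * (∫ x in (0:ℝ)..1, x * R x) + (3 * N) * IR := by
    rw [intervalIntegral.integral_add (Continuous.intervalIntegrable (by fun_prop) _ _)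
      (Continuous.intervalIntegrable (by fun_prop) _ _), intervalIntegral.integral_const_mul,
      intervalIntegral.integral_const_mul]
    have hsub : ∀ f : ℝ → ℝ, Continuous f → (∀ x ∈ Set.Icc (0:ℝ) 1, 0 ≤ f x) →
        ∫ y in η1..1, f y ≤ ∫ y in (0:ℝ)..1, f y := by
      intro f hf hf0
      rw [← intervalIntegral.integral_add_adjacent_intervals (hf.intervalIntegrable 0 η1)
        (hf.intervalIntegrable η1 1)]
      have : 0 ≤ ∫ y in (0:ℝ)..η1, f y :=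
        intervalIntegral.integral_nonneg hη10.le fun x hx => hf0 x ⟨hx.1, hx.2.trans hη1'⟩
      linarith
    have h9 := hsub (fun y => y * R y) (by fun_prop) fun x hx => mul_nonneg hx.1 (hR0 x hx)
    have h10 := hsub R hRc hR0
    rw [← hIR] at h10
    have g1 := mul_le_mul_of_nonneg_left h9 hc10
    have g2 := mul_le_mul_of_nonneg_left h10 (by linarith : (0:ℝ) ≤ 3 * N)
    linarith
  calc 2 * ∫ y in η1..1, R y * ∑ n ∈ Finset.Icc 1 X, vonMangoldt n ^ 2 / (n:ℝ) *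
        GG B (τ * L) ((1 - ε) * L * y) (Real.log n) ^ 2
      ≤ 2 * (c1 * (∫ x in (0:ℝ)..1, x * R x) + (3 * N) * IR) := by
        have := h5.trans h8
        linarith
    _ = 2 * (1 - ε) / (Real.pi * τ) * (∫ x in (0:ℝ)..1, x * R x) * N + 6 * IR * N := by
        rw [hc1]; ring
    _ ≤ 2 * (1 - ε) / (Real.pi * τ) * (∫ x in (0:ℝ)..1, x * R x) * N + (6 * IR + 1) * N := by
        linarith

end

end Pool.Agent.Y290.LD
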